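import Pool.Agent.Helper24.EG.Final

set_option autoImplicit false

/-!
Negative answer to the question whether the number `u_{p,q}` of unlabelled Eulerian graphs with `p`
vertices and `q` edges can be determined by closed forms with a number of terms bounded
independently of `p`: in Burnside's formula `U_p(x) = (1/p!) Σ_α V_α(x)` already the term `V_id(x)` of
the identity permutation (cycle type `j_1 = p`) is not such a sum, for all large `p`, even with
arbitrary real coefficients and exponents.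
-/

namespace Pool.Agent.Results.MP_98cfca_co.EulerianNoClosedForm

/-- `G` is Eulerian: connected, and every vertex has even degree. -/
def IsEulerian {p : ℕ} (G : SimpleGraph (Fin p)) : Prop :=
  (∀ v, Even (G.neighborSet v).ncard) ∧ G.Connected

/-- `α(G) = G`. -/
def IsFixed {p : ℕ} (α : Equiv.Perm (Fin p)) (G : SimpleGraph (Fin p)) : Prop :=
  ∀ u v, G.Adj (α u) (α v) ↔ G.Adj u v

open Classical in
/-- `V_α(x)`: the sum of `x ^ |E(G)|` over all Eulerian graphs `G` on `p` labelled vertices with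
`α(G) = G`. -/
noncomputable def V {p : ℕ} (α : Equiv.Perm (Fin p)) (x : ℝ) : ℝ :=
  ∑ G : SimpleGraph (Fin p) with IsEulerian G ∧ IsFixed α G, x ^ G.edgeSet.ncard

/-- `u_{p,q}`: the number of isomorphism classes of Eulerian graphs with `p` vertices and `q`
edges. -/
noncomputable def u (p q : ℕ) : ℕ :=
  {C : Set (SimpleGraph (Fin p)) | ∃ G : SimpleGraph (Fin p), IsEulerian G ∧
    G.edgeSet.ncard = q ∧ C = {H | Nonempty (G ≃g H)}}.ncard

/-- `U_p(x) = Σ_q u_{p,q} x^q`. -/
noncomputable def U (p : ℕ) (x : ℝ) : ℝ :=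
  ∑ q ∈ Finset.range (p.choose 2 + 1), (u p q : ℝ) * x ^ q

/-- The product `∏_k (1 + x^k)^(a_k) * ∏_k (1 - x^k)^(b_k)` over `k ≥ 1`, where all but finitely
many of the real exponents `a_k`, `b_k` are zero. -/
noncomputable def prodTerm (a b : ℕ+ →₀ ℝ) (x : ℝ) : ℝ :=
  (a.prod fun k r => (1 + x ^ (k : ℕ)) ^ r) * b.prod fun k r => (1 - x ^ (k : ℕ)) ^ r

/-- On `(0,1)`, `f` is a linear combination of `M` such products. -/
def IsSumOfTerms (M : ℕ) (f : ℝ → ℝ) : Prop :=
  ∃ (c : Fin M → ℝ) (a b : Fin M → ℕ+ →₀ ℝ),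
    ∀ x : ℝ, 0 < x → x < 1 → f x = ∑ i, c i * prodTerm (a i) (b i) x

theorem result :
    (∀ (p : ℕ) (x : ℝ), U p x = (p.factorial : ℝ)⁻¹ * ∑ α : Equiv.Perm (Fin p), V α x) ∧
    ∀ M : ℕ, ∃ p₀ : ℕ, ∀ p ≥ p₀, ¬ IsSumOfTerms M (V (1 : Equiv.Perm (Fin p))) := by
  classical
  refine ⟨fun p x => ?_, fun M => ?_⟩
  · have h1 := Pool.Agent.Helper24.EG.burn p x
    have h2 : ∑ α : Equiv.Perm (Fin p), V α x = (p.factorial : ℝ) * U p x := by
      refine Eq.trans ?_ h1.symm
      refine Finset.sum_congr rfl fun α _ => ?_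
      rw [V, Pool.Agent.Helper24.EG.Va]
      refine Finset.sum_congr ?_ fun G _ => rfl
      ext G
      simp only [Finset.mem_filter, Finset.mem_univ, true_and]
      exact Iff.rfl
    rw [h2, ← mul_assoc, inv_mul_cancel₀ (by positivity), one_mul]
  · obtain ⟨p₀, hp₀⟩ := Pool.Agent.Helper24.EG.main M
    refine ⟨p₀, fun p hp => ?_⟩
    rintro ⟨c, a, b, h⟩
    refine hp₀ p hp c (fun i => (a i).mapDomain PNat.natPred)
      (fun i => (b i).mapDomain PNat.natPred) fun x hx => ?_
    have h1 := h x hx.1 hx.2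
    rw [V, Finset.sum_filter] at h1
    refine Eq.trans ?_ (h1.trans ?_)
    · refine Finset.sum_congr rfl fun G _ => ?_
      have hfix : IsFixed (1 : Equiv.Perm (Fin p)) G := fun u v => Iff.rfl
      have hiff : (IsEulerian G ∧ IsFixed (1 : Equiv.Perm (Fin p)) G) ↔
          ((∀ v, Even (G.neighborSet v).ncard) ∧ G.Connected) :=
        ⟨fun h => h.1, fun h => ⟨h, hfix⟩⟩
      simp only [hiff]
    · refine Finset.sum_congr rfl fun i _ => ?_
      have hinj : Function.Injective PNat.natPred := PNat.natPred_injective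
      rw [prodTerm, ← mul_assoc, Finsupp.prod_mapDomain_index_inj hinj,
        Finsupp.prod_mapDomain_index_inj hinj]
      simp only [PNat.natPred_add_one]

end Pool.Agent.Results.MP_98cfca_co.EulerianNoClosedForm
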