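import Pool.Agent.Helper52.Main

set_option autoImplicit false

/-!
Negative answer to the question whether the generating function `W_α(x)` of the even graphs fixed
by a permutation `α` of the vertices has a closed form with a number of terms that is bounded
independently of the number `p` of vertices.  It fails already for the identity permutation
(cycle type `j_1 = p`), for all large `p`, and even with arbitrary real coefficients and exponents.
-/

namespace Pool.Agent.Results.MP_98cfca_co.NoBoundedClosedForm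

/-- `G` is even: every vertex has even degree. -/
def IsEven {p : ℕ} (G : SimpleGraph (Fin p)) : Prop := ∀ v, Even (G.neighborSet v).ncard

/-- `α(G) = G`. -/
def IsFixed {p : ℕ} (α : Equiv.Perm (Fin p)) (G : SimpleGraph (Fin p)) : Prop :=
  ∀ u v, G.Adj (α u) (α v) ↔ G.Adj u v

open Classical in
/-- `W_α(x)`: the sum of `x ^ |E(G)|` over all even graphs `G` on `p` labelled vertices with
`α(G) = G`. -/
noncomputable def W {p : ℕ} (α : Equiv.Perm (Fin p)) (x : ℝ) : ℝ :=
  ∑ G : SimpleGraph (Fin p) with IsEven G ∧ IsFixed α G, x ^ G.edgeSet.ncard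

/-- The product `∏_k (1 + x^k)^(a_k) * ∏_k (1 - x^k)^(b_k)` over `k ≥ 1`, where all but finitely
many of the real exponents `a_k`, `b_k` are zero. -/
noncomputable def prodTerm (a b : ℕ+ →₀ ℝ) (x : ℝ) : ℝ :=
  (a.prod fun k r => (1 + x ^ (k : ℕ)) ^ r) * b.prod fun k r => (1 - x ^ (k : ℕ)) ^ r

/-- On `(0,1)`, `f` is a linear combination of `M` such products. -/
def IsSumOfTerms (M : ℕ) (f : ℝ → ℝ) : Prop :=
  ∃ (c : Fin M → ℝ) (a b : Fin M → ℕ+ →₀ ℝ),
    ∀ x : ℝ, 0 < x → x < 1 → f x = ∑ i, c i * prodTerm (a i) (b i) x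

theorem result : ∀ M : ℕ, ∃ p₀ : ℕ, ∀ p ≥ p₀, ¬ IsSumOfTerms M (W (1 : Equiv.Perm (Fin p))) := by
  classical
  intro M
  obtain ⟨p₀, hp₀⟩ := Pool.Agent.Helper52.main_real M
  refine ⟨p₀, fun p hp => ?_⟩
  rintro ⟨c, a, b, h⟩
  refine hp₀ p hp c (fun i => (a i).mapDomain PNat.natPred) (fun i => (b i).mapDomain PNat.natPred)
    fun x hx => ?_
  have h1 := h x hx.1 hx.2
  rw [W, Finset.sum_filter] at h1
  refine Eq.trans ?_ (h1.trans ?_)
  · refine Finset.sum_congr rfl fun G _ => ?_
    have hfix : IsFixed (1 : Equiv.Perm (Fin p)) G := fun u v => Iff.rfl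
    have hiff : (IsEven G ∧ IsFixed (1 : Equiv.Perm (Fin p)) G) ↔
        ∀ v, Even (G.neighborSet v).ncard := ⟨fun h => h.1, fun h => ⟨h, hfix⟩⟩
    simp only [hiff]
  · refine Finset.sum_congr rfl fun i _ => ?_
    have hinj : Function.Injective PNat.natPred := PNat.natPred_injective
    rw [prodTerm, ← mul_assoc, Finsupp.prod_mapDomain_index_inj hinj,
      Finsupp.prod_mapDomain_index_inj hinj]
    simp only [PNat.natPred_add_one]

end Pool.Agent.Results.MP_98cfca_co.NoBoundedClosedForm
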